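import Pool.Agent.helper84.QI.Spec

/-! Row CNJ of project QI. -/

set_option autoImplicit false

namespace Pool.Agent.QI

theorem CNJ : CNJ_stmt := by
  intro G _ a b hCE x hx y hy h
  refine (hCE.fin.image (fun s => s * h)).subset ?_
  intro g hg
  refine ⟨g * h⁻¹, ?_, by group⟩
  show (Subgroup.closure ({a, (g * h⁻¹)⁻¹ * b * (g * h⁻¹)} : Set G) : Set G).Infinite
  have hmap : (Subgroup.closure ({h⁻¹ * x * h, g⁻¹ * y * g} : Set G)).map (MulAut.conj h).toMonoidHom ≤
      Subgroup.closure ({a, (g * h⁻¹)⁻¹ * b * (g * h⁻¹)} : Set G) := by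
    rw [MonoidHom.map_closure, Subgroup.closure_le]
    rintro z ⟨w, hw, rfl⟩
    simp only [Set.mem_insert_iff, Set.mem_singleton_iff] at hw
    rcases hw with rfl | rfl
    · have e : (MulAut.conj h).toMonoidHom (h⁻¹ * x * h) = x := by
        simp only [MulEquiv.coe_toMonoidHom, MulAut.conj_apply]
        group
      rw [e]
      have h1 : Subgroup.zpowers a ≤ Subgroup.closure ({a, (g * h⁻¹)⁻¹ * b * (g * h⁻¹)} : Set G) := by
        rw [Subgroup.zpowers_le]
        exact Subgroup.subset_closure (Set.mem_insert _ _)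
      exact h1 hx
    · obtain ⟨k, rfl⟩ := Subgroup.mem_zpowers_iff.mp hy
      have e : (MulAut.conj h).toMonoidHom (g⁻¹ * b ^ k * g) = ((g * h⁻¹)⁻¹ * b * (g * h⁻¹)) ^ k := by
        have e1 : (g * h⁻¹)⁻¹ * b * (g * h⁻¹) = (g * h⁻¹)⁻¹ * b * ((g * h⁻¹)⁻¹)⁻¹ := by rw [inv_inv]
        rw [e1, conj_zpow]
        simp only [MulEquiv.coe_toMonoidHom, MulAut.conj_apply]
        group
      rw [e]
      exact Subgroup.zpow_mem _ (Subgroup.subset_closure (Set.mem_insert_of_mem _ (Set.mem_singleton _))) k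
  have hinf : ((Subgroup.closure ({h⁻¹ * x * h, g⁻¹ * y * g} : Set G)).map (MulAut.conj h).toMonoidHom : Set G).Infinite := by
    rw [Subgroup.coe_map]
    refine Set.Infinite.image ?_ hg
    exact (MulAut.conj h).injective.injOn
  exact hinf.mono hmap

end Pool.Agent.QI
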